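import Mathlib
import Pool.Agent.TP975.RP.Gn9

/-!
The Bateman-Horn formula for almost all systems `f_(i j) (g_j (X))`, where the `g_j` are given polynomials and
the `f_i` are random, for all `x` of a long range at once and with a saving of any power of `log log H`.
-/

set_option autoImplicit false

namespace Pool.Agent.Results.MP_51e72e_nt.Compositions

open Finset

/-- the value at `t` of the polynomial with the coefficients `a 0, ..., a d` -/
def value {d : ℕ} (a : Fin (d + 1) → ℤ) (t : ℤ) : ℤ := ∑ c, a c * t ^ (c : ℕ)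

/-- the `m`-tuples of polynomials of degree at most `d` with coefficients in `[-H, H]` -/
noncomputable def box (m d H : ℕ) : Finset (Fin m → Fin (d + 1) → ℤ) :=
  Fintype.piFinset fun _ => Fintype.piFinset fun _ => Icc (-(H : ℤ)) H

/-- the number of `1 ≤ n ≤ x` such that `|f_(i j) (g_j (n))|` is a prime for every `j` -/
def primeCount {m d k : ℕ} (i : Fin k → Fin m) (g : Fin k → Polynomial ℤ) (f : Fin m → Fin (d + 1) → ℤ) (x : ℕ) : ℕ :=
  ((Icc 1 x).filter (fun n : ℕ => ∀ j, (value (f (i j)) ((g j).eval (n : ℤ))).natAbs.Prime)).card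

/-- the number of residue classes `n` modulo `p` such that `p` divides `∏ j, f_(i j) (g_j (n))`, `p` prime -/
def omega {m d k : ℕ} (i : Fin k → Fin m) (g : Fin k → Polynomial ℤ) (f : Fin m → Fin (d + 1) → ℤ) (p : ℕ) : ℕ :=
  ((range p).filter (fun n : ℕ => ∃ j, (p : ℤ) ∣ value (f (i j)) ((g j).eval (n : ℤ)))).card

/-- the product over the primes up to `w` in the constant of the conjecture -/
noncomputable def constant {m d k : ℕ} (w : ℕ) (i : Fin k → Fin m) (g : Fin k → Polynomial ℤ)
    (f : Fin m → Fin (d + 1) → ℤ) : ℝ :=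
  ∏ p ∈ (Icc 1 w).filter Nat.Prime, (1 - (omega i g f p : ℝ) / p) * ((1 - 1 / (p : ℝ))⁻¹) ^ k

open Classical in
/-- Let `g_j` be nonconstant polynomials, let the pairs `(i j, g_j)` be distinct, and let every index be taken at
most `d` times. For almost all `m`-tuples of polynomials `f_i` of degree at most `d` with coefficients of size at
most `H`, the system of the polynomials `f_(i j) (g_j (X))` either has a fixed prime divisor or satisfies the
formula of Bateman and Horn for all `x` with `log ^ (k + ε) H ≤ x ≤ log ^ A H`, up to a relative error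
`(log log H) ^ (-B)`; the proportion of the exceptional tuples is at most `(log log H) ^ (-B)`. -/
theorem result (m d k : ℕ) (hd : 1 ≤ d) (hk : 1 ≤ k) (i : Fin k → Fin m)
    (hmult : ∀ l, (univ.filter (fun j => i j = l)).card ≤ d) (g : Fin k → Polynomial ℤ)
    (hg : ∀ j, 1 ≤ (g j).natDegree) (hinj : ∀ j j', j ≠ j' → i j = i j' → g j ≠ g j')
    (ε : ℝ) (hε : 0 < ε) (A B : ℕ) : ∃ E : ℕ, ∀ E' : ℕ, ∃ H₀ : ℕ, ∀ H : ℕ, H₀ ≤ H →
    ∀ w : ℕ, Real.log (Real.log H) ^ E ≤ w → (w : ℝ) ≤ Real.log (Real.log H) ^ E' →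
    (((box m d H).filter (fun f => (∀ p ≤ w, p.Prime → omega i g f p < p) ∧
      ∃ x : ℕ, Real.log H ^ ((k : ℝ) + ε) ≤ x ∧ (x : ℝ) ≤ Real.log H ^ A ∧
      constant w i g f * x / Real.log H ^ k / Real.log (Real.log H) ^ B <
        |(primeCount i g f x : ℝ) - constant w i g f * x / Real.log H ^ k|)).card : ℝ) ≤
      (box m d H).card / Real.log (Real.log H) ^ B :=
  Pool.Agent.TP975.RP.cmp2 m d k hd hk i hmult g hg hinj ε hε A B

end Pool.Agent.Results.MP_51e72e_nt.Compositions
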