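import Mathlib
import Pool.Agent.TP975.RP.Mx8

/-!
The number of the first arguments at which a random polynomial has a prime value: a mixed Poisson law.
-/

set_option autoImplicit false

namespace Pool.Agent.Results.MP_51e72e_nt.MixedPoissonLaw

open Finset

/-- the value at `t` of the polynomial with the coefficients `a 0, ..., a d` -/
def value {d : ℕ} (a : Fin (d + 1) → ℤ) (t : ℤ) : ℤ := ∑ c, a c * t ^ (c : ℕ)

/-- the polynomials of degree at most `d` with coefficients in `[-H, H]` -/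
noncomputable def box (d H : ℕ) : Finset (Fin (d + 1) → ℤ) := Fintype.piFinset fun _ => Icc (-(H : ℤ)) H

/-- the number of `1 ≤ n ≤ x` such that `|f (n)|` is a prime -/
def primeCount {d : ℕ} (f : Fin (d + 1) → ℤ) (x : ℕ) : ℕ :=
  ((Icc 1 x).filter (fun n : ℕ => (value f (n : ℤ)).natAbs.Prime)).card

/-- the number of zeros of `f` modulo `p` -/
def omega {d : ℕ} (f : Fin (d + 1) → ℤ) (p : ℕ) : ℕ := ((range p).filter (fun n : ℕ => (p : ℤ) ∣ value f (n : ℤ))).card

/-- the product over the primes up to `w` in the constant of the conjecture -/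
noncomputable def constant {d : ℕ} (w : ℕ) (f : Fin (d + 1) → ℤ) : ℝ :=
  ∏ p ∈ (Icc 1 w).filter Nat.Prime, (1 - (omega f p : ℝ) / p) * (1 - 1 / (p : ℝ))⁻¹

/-- the bound for the distance in total variation; with `M = 2 * d + 1` it is
`16 * (2 * e ^ 2 * lam * ∏ p ≤ M, (1 - 1 / p)⁻¹) ^ M / M !` -/
noncomputable def bound (lam : ℝ) (d : ℕ) : ℝ :=
  16 * (2 * Real.exp 2 * lam * ∏ p ∈ (Icc 1 (2 * d + 1)).filter Nat.Prime, (1 - 1 / (p : ℝ))⁻¹) ^ (2 * d + 1) /
    ((2 * d + 1).factorial : ℝ)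

/-- For random polynomials `f` of degree at most `d` with coefficients in `[-H, H]`, the number of `n ≤ lam * log H`
with `|f n|` prime has, up to `bound lam d + o(1)` in total variation, the Poisson distribution with the random
parameter `lam * constant w f`; and `bound lam d` tends to zero as the degree `d` tends to infinity. -/
theorem result (lam : ℝ) (hlam : 0 < lam) : Filter.Tendsto (bound lam) Filter.atTop (nhds 0) ∧
    ∀ d : ℕ, 1 ≤ d → ∀ ε : ℝ, 0 < ε → ∃ w₀ : ℕ, ∀ w : ℕ, w₀ ≤ w → ∃ H₀ : ℕ, ∀ H : ℕ, H₀ ≤ H → ∀ S : Finset ℕ,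
    |(((box d H).filter (fun f => primeCount f ⌊lam * Real.log H⌋₊ ∈ S)).card : ℝ) -
      ∑ f ∈ box d H, ∑ j ∈ S, Real.exp (-(lam * constant w f)) * (lam * constant w f) ^ j / (j.factorial : ℝ)| ≤
      (bound lam d + ε) * (box d H).card :=
  ⟨Pool.Agent.TP975.RP.lawErr_tendsto lam hlam, fun d hd ε hε => Pool.Agent.TP975.RP.law d hd lam hlam ε hε⟩

end Pool.Agent.Results.MP_51e72e_nt.MixedPoissonLaw
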