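import Mathlib
import Pool.Agent.TP975.RP.Pw4

/-!
The numbers of prime values of almost all systems of polynomials in windows of length about `log H`, starting at the
elements of an arbitrary set of `(log H)^(1+ε)` integers, have the factorial moments of independent Poisson variables, up
to the order `d` in each polynomial of degree `d`.
-/

set_option autoImplicit false

namespace Pool.Agent.Results.MP_51e72e_nt.PoissonWindows

open Finset

/-- the value at `t` of the polynomial with the coefficients `a 0, ..., a d` -/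
def value {d : ℕ} (a : Fin (d + 1) → ℤ) (t : ℤ) : ℤ := ∑ c, a c * t ^ (c : ℕ)

/-- the `m`-tuples of polynomials of degree at most `d` with coefficients in `[-H, H]` -/
noncomputable def box (m d H : ℕ) : Finset (Fin m → Fin (d + 1) → ℤ) :=
  Fintype.piFinset fun _ => Fintype.piFinset fun _ => Icc (-(H : ℤ)) H

/-- the number of integers `t < n ≤ t + U` such that `|f(n)|` is a prime -/
def windowCount {d : ℕ} (f : Fin (d + 1) → ℤ) (t : ℤ) (U : ℕ) : ℕ :=
  ((Icc 1 U).filter (fun u : ℕ => (value f (t + u)).natAbs.Prime)).card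

/-- the number of residue classes `n` modulo `p` such that `p` divides `f(n)` -/
def omega {d : ℕ} (f : Fin (d + 1) → ℤ) (p : ℕ) : ℕ := ((range p).filter (fun n : ℕ => (p : ℤ) ∣ value f (n : ℤ))).card

/-- the product over the primes up to `w` in the constant of the conjecture for `{f}` -/
noncomputable def constant {d : ℕ} (w : ℕ) (f : Fin (d + 1) → ℤ) : ℝ :=
  ∏ p ∈ (Icc 1 w).filter Nat.Prime, (1 - (omega f p : ℝ) / p) * (1 - 1 / (p : ℝ))⁻¹

/-- Let `r i ≤ d` for all `i`. For every set `T` of at least `(log H)^(1+ε)` integers of size at most `(log H)^A` and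
every `U` between `log H / (log log H)^B` and `log H (log log H)^B`, almost all `m`-tuples of polynomials of degree at
most `d` with coefficients of size at most `H` without fixed prime divisors have the following property: the mean value
over `t ∈ T` of the product of the factorial moments `π_i (π_i - 1) ... (π_i - r i + 1)`, `π_i` the number of prime
values of `f_i` in the window `(t, t + U]`, is `∏ (U C(f_i) / log H) ^ r i + O((log log H)^(-B))`. -/
theorem result (m d : ℕ) (hd : 1 ≤ d) (r : Fin m → ℕ) (hr : ∀ i, r i ≤ d) (A B : ℕ) (ε : ℝ) (hε : 0 < ε) :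
    ∃ E : ℕ, ∀ E' : ℕ, ∃ H₀ : ℕ, ∀ H : ℕ, H₀ ≤ H → ∀ w : ℕ, Real.log (Real.log H) ^ E ≤ w →
    (w : ℝ) ≤ Real.log (Real.log H) ^ E' → ∀ (T : Finset ℤ) (U : ℕ), Real.log H / Real.log (Real.log H) ^ B ≤ U →
    (U : ℝ) ≤ Real.log H * Real.log (Real.log H) ^ B → (∀ t ∈ T, |(t : ℝ)| ≤ Real.log H ^ A) →
    Real.log H ^ (1 + ε) ≤ T.card →
    (((box m d H).filter (fun f => (∀ i, ∀ p ≤ w, p.Prime → omega (f i) p < p) ∧
      1 / Real.log (Real.log H) ^ B < |(∑ t ∈ T, ((∏ i, (windowCount (f i) t U).descFactorial (r i) : ℕ) : ℝ)) / T.card -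
        ∏ i, (U * constant w (f i) / Real.log H) ^ r i|)).card : ℝ) ≤ (box m d H).card / Real.log (Real.log H) ^ B := by
  classical
  obtain ⟨E, h⟩ := Pool.Agent.TP975.RP.winds m d hd r hr A B ε hε
  refine ⟨E, fun E' => ?_⟩
  obtain ⟨H0, h0⟩ := h E'
  refine ⟨H0, fun H hH w h1 h2 T U h3 h4 h5 h6 => ?_⟩
  refine le_trans (le_of_eq ?_) (h0 H hH w h1 h2 T U h3 h4 h5 h6)
  congr 1

end Pool.Agent.Results.MP_51e72e_nt.PoissonWindows
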