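import Pool.Agent.helper24_UT.Ch2

set_option autoImplicit false

/-!
# Schinzel's asymptotic formula for systems of `k` polynomials whose two lowest coefficients vary

Let `k ≥ 1`, `r`, `e ≥ 1` and `A` be fixed, let `E` be large in terms of these and `H` large in terms of `E`. Let
`G_1, …, G_k` be any polynomials of degree at most `r` with `G_i(0) = 0`, and let `H ^ (1 / e) ≤ R_i ≤ Q_i ≤ H`. For all but at
most `∏ Q_i R_i / (log H) ^ A` of the vectors `(b_1, c_1, …, b_k, c_k)` with `1 ≤ b_i ≤ Q_i`, `1 ≤ c_i ≤ R_i`: if the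
system `f_i = G_i + b_i X + c_i` has no fixed prime divisor, then for all `y ≥ (log H) ^ B` with

`Q_i y (log H) ^ B ≤ R_i ^ 2` and `(∑_j |g_{i,j}| y ^ (j - 1)) (log H) ^ B ≤ Q_i` for `i = 1, …, k`

the number of the `n ≤ y` for which all `f_i(n)` are prime is `(1 + θ (log H) ^ (-A))` times
`∏_{p ≤ (log H) ^ E} (1 - ω_f(p) / p) (1 - 1 / p) ^ (-k) ∑_{n ≤ y} ∏_i 1 / log f_i(n)`, `|θ| ≤ 1`.

So for `Q_i = R_i = H` the length `y` can be as large as `H / (log H) ^ B` for linear systems, and `R_i` may be as small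
as `Q_i ^ (1 / 2)` up to powers of the logarithm when `y` is a power of the logarithm. If all `G_i` are fixed and of
degree `r ≥ 2`, then `y` can be as large as `H ^ (1 / (r - 1))` up to powers of `log H`.

Proof. The main step is a bilinear one: for the difference `D` of the primes and their sieve model and for ANY bounded weights
`w_n` and ANY `g(n)` the sums `∑_{n ≤ y} w_n D(b n + c + g(n))` are small in mean square over `b ≤ Q`, `c ≤ R`; so the
primes may be replaced by the model in one polynomial after the other. For this the pairs `n, n'` are treated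
separately: the pairs of values `(b n + c, b n' + c)` fill a strip in a lattice of determinant `n - n'`, which is cut into
squares of side `W`, so that only the distribution of the primes in residue classes modulo `n - n'` in almost all
intervals of length `W` matters; the large sieve reduces it to moduli up to a power of the logarithm.
For these one needs the primes in progressions in almost all intervals of length `W ≥ X ^ (1 / 2) (log X) ^ C`: Parseval's
identity on the frequencies `n ^ (-i t)`, `|t| ≤ X / W`, Vaughan's identity, and a bound for sums over primes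
`∑ Λ(n) χ(n) n ^ (-i t)`, `|t| > (log X) ^ C`, which saves any power of the logarithm already for `n ≤ exp ((log X) ^ (1 - η))`;
it is proved by Vinogradov's bound for `∑ (n + θ) ^ (-i t)` (starting file `Pool.Agent.Y957.VK`) and the elementary
method of `3 + 4 cos + cos 2` for the derivatives of the Dirichlet series of the numbers without small prime factors.
The main terms: fundamental lemma of the sieve for long sums, and the second moment over `(b, c)` for short ones.
-/

namespace Pool.Agent.Results.MP_51e72e_nt.SystemsTwoLowest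

open Finset Polynomial

variable {k : ℕ}

/-- The system of the polynomials `G i + b i X + c i`, where `v i = (b i, c i)`. -/
noncomputable def system (G : Fin k → ℤ[X]) (v : Fin k → ℕ × ℕ) (i : Fin k) : ℤ[X] :=
  G i + C ((v i).1 : ℤ) * X + C ((v i).2 : ℤ)

open Classical in
/-- `ω_f(p)`: the number of residue classes modulo `p` in which one of the polynomials vanishes modulo `p`. -/
noncomputable def omega (f : Fin k → ℤ[X]) (p : ℕ) : ℕ :=
  ((range p).filter (fun t : ℕ => ∃ i, (p : ℤ) ∣ (f i).eval (t : ℤ))).card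

/-- The Euler product `∏_{p ≤ z} (1 - ω_f(p) / p) / (1 - 1 / p) ^ k`. -/
noncomputable def eulerProd (z : ℕ) (f : Fin k → ℤ[X]) : ℝ :=
  ∏ p ∈ (Icc 1 z).filter Nat.Prime, (1 - (omega f p : ℝ) / p) / (1 - 1 / (p : ℝ)) ^ k

open Classical in
/-- `π_f(y)`: the number of `1 ≤ n ≤ y` for which all `|f_i(n)|` are prime. -/
noncomputable def primeCount (f : Fin k → ℤ[X]) (y : ℕ) : ℕ :=
  ((Icc 1 y).filter (fun n : ℕ => ∀ i, ((f i).eval (n : ℤ)).natAbs.Prime)).card

/-- `∑_{n ≤ y} ∏_i 1 / log f_i(n)`. -/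
noncomputable def logSum (f : Fin k → ℤ[X]) (y : ℕ) : ℝ :=
  ∑ n ∈ Icc 1 y, ∏ i, 1 / Real.log (((f i).eval (n : ℤ) : ℤ) : ℝ)

/-- `∑_{j ≥ 0} |g_{j + 1}| y ^ j`. -/
noncomputable def slope (g : ℤ[X]) (y : ℕ) : ℝ :=
  ∑ j ∈ range g.natDegree, |(g.coeff (j + 1) : ℝ)| * (y : ℝ) ^ j

/-- The system has no fixed prime divisor. -/
def NoFixedDivisor (f : Fin k → ℤ[X]) : Prop := ∀ p : ℕ, p.Prime → ∃ n : ℤ, ∀ i, ¬ (p : ℤ) ∣ (f i).eval n

/-- The conclusion for one system: for all `y` in the range the values at `1, …, y` are at least `3`, and the number of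
the `n ≤ y` for which all are prime is `(1 + θ (log H) ^ (-A))` times the predicted one. -/
def Good (A B E H : ℕ) (Q R : Fin k → ℕ) (G f : Fin k → ℤ[X]) : Prop :=
  ∀ y : ℕ, Real.log H ^ B ≤ y →
    (∀ i, (Q i : ℝ) * y * Real.log H ^ B ≤ (R i : ℝ) ^ 2 ∧ slope (G i) y * Real.log H ^ B ≤ Q i) →
    (∀ i, ∀ n ∈ Icc 1 y, 3 ≤ (f i).eval (n : ℤ)) ∧
    |(primeCount f y : ℝ) - eulerProd ⌊Real.log H ^ E⌋₊ f * logSum f y| ≤
      eulerProd ⌊Real.log H ^ E⌋₊ f * logSum f y / Real.log H ^ A

open Classical in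
/-- The number of the `v = ((b_1, c_1), …, (b_k, c_k))`, `1 ≤ b_i ≤ Q_i`, `1 ≤ c_i ≤ R_i`, for which the system has no fixed
prime divisor and the conclusion fails. -/
noncomputable def exceptions (A B E H : ℕ) (Q R : Fin k → ℕ) (G : Fin k → ℤ[X]) : ℕ :=
  ((Fintype.piFinset fun i => Icc 1 (Q i) ×ˢ Icc 1 (R i)).filter (fun v : Fin k → ℕ × ℕ =>
    NoFixedDivisor (system G v) ∧ ¬ Good A B E H Q R G (system G v))).card

/-- **Schinzel's asymptotic formula for almost all choices of the two lowest coefficients of `k` polynomials.** -/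
theorem result (k r e A : ℕ) (hk : 1 ≤ k) (he : 1 ≤ e) : ∃ E₀ B : ℕ, ∀ E : ℕ, E₀ ≤ E → ∃ H₀ : ℕ,
    ∀ H : ℕ, H₀ ≤ H → ∀ Q R : Fin k → ℕ, (∀ i, (H : ℝ) ^ (1 / e : ℝ) ≤ R i ∧ R i ≤ Q i ∧ Q i ≤ H) →
    ∀ G : Fin k → ℤ[X], (∀ i, (G i).natDegree ≤ r ∧ (G i).coeff 0 = 0) →
    (exceptions A B E H Q R G : ℝ) ≤ (∏ i, ((Q i : ℝ) * R i)) / Real.log H ^ A :=
  Pool.Agent.helper24_UT.Ch.t_R1 k r e A hk he

end Pool.Agent.Results.MP_51e72e_nt.SystemsTwoLowest
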